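import Pool.Agent.R876.SV.FinA
import Pool.Agent.R876.SV.GR
import Pool.Agent.R876.SV.SM
import Pool.Agent.R876.SV.RE
import Pool.Agent.R876.SV.JE
import Pool.Agent.R876.SV.BW
import Pool.Agent.R876.SV.DP
import Pool.Agent.R876.SV.FN
import Pool.Agent.R876.SV.UN
import Pool.Agent.R876.SV.ME
import Pool.Agent.R876.SV.HO

/-!
# MP_6db049_an (Q1): derivative and shift difference sharing three values

Let `f` be meromorphic in the plane, `c ≠ 0` and `a ≠ b` finite.  If `f'` and
`Δ_c f (z) = f (z + c) - f z` share `a`, `b` and `∞` counting multiplicities, then `f' = Δ_c f`,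
as soon as `f` is not a polynomial of degree at most one; in particular whenever the hyper-order
of `f` is infinite (Q1).  There is no growth assumption.

Definitions (`Pool/Agent/R876/SV/Defs.lean`): `ShareVal g h a` (the zeros of `g - a` and `h - a`
have the same multiplicities), `SharePoles g h` (same poles with the same multiplicities),
`hyperOrder f = limsup log log T(r,f) / log r` with Mathlib's Nevanlinna characteristic.
A meromorphic function is a function `ℂ → ℂ` that is `MeromorphicAt` every point, and two
meromorphic functions are equal if they agree off a closed discrete set.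
-/

namespace Pool.Agent.Results.MP_6db049_an.SharedValues

open Filter Topology Pool.Agent.R876.SV

theorem result :
    (∀ (f : ℂ → ℂ) (c a b : ℂ), (∀ z, MeromorphicAt f z) → c ≠ 0 → a ≠ b →
      (¬ ∃ α β : ℂ, ∀ z, ∀ᶠ x in 𝓝[≠] z, f x = α * x + β) →
      ShareVal (deriv f) (fun x => f (x + c) - f x) a →
      ShareVal (deriv f) (fun x => f (x + c) - f x) b →
      SharePoles (deriv f) (fun x => f (x + c) - f x) →
      ∀ z, ∀ᶠ x in 𝓝[≠] z, deriv f x = f (x + c) - f x) ∧
    (∀ (f : ℂ → ℂ) (c a b : ℂ), (∀ z, MeromorphicAt f z) → hyperOrder f = ⊤ → c ≠ 0 → a ≠ b →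
      ShareVal (deriv f) (fun x => f (x + c) - f x) a →
      ShareVal (deriv f) (fun x => f (x + c) - f x) b →
      SharePoles (deriv f) (fun x => f (x + c) - f x) →
      ∀ z, ∀ᶠ x in 𝓝[≠] z, deriv f x = f (x + c) - f x) := by
  have hBW : S_BW := BW JE
  have hDP : S_DP := DP SM hBW
  refine ⟨?_, ?_⟩
  · intro f c a b hf hc hab hnaff ha hb hinf
    exact general GR SM hDP FN UN ME f c a b hf hc hab hnaff ha hb hinf
  · intro f c a b hf hho hc hab ha hb hinf
    refine general GR SM hDP FN UN ME f c a b hf hc hab ?_ ha hb hinf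
    rintro ⟨α, β, h⟩
    exact HO f α β hf h hho

end Pool.Agent.Results.MP_6db049_an.SharedValues
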